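import Pool.Agent.MP_db5b97_nt.H31.SpecT
import Pool.Agent.MP_db5b97_nt.H76.CORE
import Pool.Agent.MP_db5b97_nt.H21.NT2

/-! The class dies at a low level of the cyclic tower. -/

namespace Pool.Agent.MP_db5b97_nt.H27

open H85 H31 NumberField IsDedekindDomain

section Cores

variable {G A : Type} [Group G] [Fintype G] [AddCommGroup A] [DistribMulAction G A]

omit [DistribMulAction G A] in
open Classical in
theorem sum_cosets (P : Subgroup G) (f : G → A) :
    ∑ g : G, f g = ∑ q : G ⧸ P, ∑ s : P, f (q.out * s) := by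
  rw [← Fintype.sum_prod_type' (fun (q : G ⧸ P) (s : P) => f (q.out * s))]
  refine (Fintype.sum_bijective (fun x : (G ⧸ P) × P => x.1.out * x.2) ⟨?_, fun g => ?_⟩ _ _
    fun _ => rfl).symm
  · rintro ⟨q, s⟩ ⟨q', s'⟩ (e : q.out * s = q'.out * s')
    have h : q = q' := by
      have := congrArg (QuotientGroup.mk (s := P)) e
      rwa [QuotientGroup.mk_mul_of_mem _ s.2, QuotientGroup.mk_mul_of_mem _ s'.2,
        QuotientGroup.out_eq', QuotientGroup.out_eq'] at this
    subst h
    rw [Subtype.ext (mul_left_cancel e)]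
  · obtain ⟨s, hs⟩ := QuotientGroup.mk_out_eq_mul P g
    exact ⟨(g, s⁻¹), by simp [hs]⟩

open Classical in
theorem cores (P : Subgroup G) (C : G → A) (hC : Cc C) (T S : A) (D : A →+ A)
    (hD : ∀ (g : G) x, D (g • x) = g • D x) (hDC : ∀ g, D (C g) = 0)
    (hT : ∀ s : P, C s = (s : G) • T - T) (hS : D T = ∑ s : P, (s : G) • S) (B : AddSubgroup A)
    (hB : ∀ (g : G), ∀ x ∈ B, g • x ∈ B) (hTB : T ∈ B) (hCB : ∀ g, C g ∈ B) :
    ∃ t ∈ B, (∀ g, P.index • C g = g • t - t) ∧ D t = tr G S := by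
  let φ : G → A := fun g => g • T - C g
  have h1 : ∀ (g : G) (s : P), φ (g * s) = φ g := fun g s => by
    simp only [φ]
    rw [hC, hT, mul_smul, smul_sub]
    abel
  have h2 : ∀ x g : G, x • φ g = φ (x * g) + C x := fun x g => by
    simp only [φ]
    rw [hC, mul_smul, smul_sub]
    abel
  refine ⟨∑ q : G ⧸ P, φ q.out, sum_mem fun q _ => sub_mem (hB _ _ hTB) (hCB _), fun x => ?_, ?_⟩
  · have h3 : ∀ q : G ⧸ P, φ (x * q.out) = φ (x • q).out := fun q => by
      obtain ⟨s, hs⟩ := QuotientGroup.mk_out_eq_mul P (x * q.out)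
      have : x • q = QuotientGroup.mk (x * q.out) := by
        conv_lhs => rw [← QuotientGroup.out_eq' q]
        rfl
      rw [this, hs, h1]
    rw [Finset.smul_sum]
    simp only [h2, h3, Finset.sum_add_distrib, Finset.sum_const, Finset.card_univ]
    rw [← Equiv.sum_comp (MulAction.toPerm x) (fun q : G ⧸ P => φ q.out)]
    simp only [MulAction.toPerm_apply, add_sub_cancel_left]
    rw [Subgroup.index_eq_card, Nat.card_eq_fintype_card]
  · rw [tr_apply, sum_cosets P, map_sum]
    refine Finset.sum_congr rfl fun q _ => ?_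
    simp only [φ, map_sub, hD, hDC, hS, sub_zero, Finset.smul_sum, mul_smul]

end Cores

/-- an action commuting with the Galois group descends to the fixed field -/
theorem exists_act {E Q K : Type} (H : Type) [Field E] [Group Q] [MulSemiringAction Q E] [Field K]
    [Algebra K E] [IsGaloisGroup Q K E] [Group H] [MulSemiringAction H E]
    (hc : ∀ (g : H) (s : Q) (x : E), g • s • x = s • g • x) :
    ∃ _ : MulSemiringAction H K, ∀ (g : H) (x : K), algebraMap K E (g • x) = g • algebraMap K E x := by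
  have h : ∀ g : H, ∃ ψ : K →+* K, ∀ a, algebraMap K E (ψ a) = g • algebraMap K E a := fun g =>
    H76.exists_lift (G := Q) ((MulSemiringAction.toRingHom H E g).comp (algebraMap K E))
      fun s a => by
        show s • g • algebraMap K E a = g • algebraMap K E a
        rw [← hc, H76.smul_alg]
  choose ψ hψ using h
  have hi := (algebraMap K E).injective
  exact ⟨{ smul := fun g x => ψ g x
           one_smul := fun x => hi (show algebraMap K E (ψ 1 x) = _ by rw [hψ, one_smul])
           mul_smul := fun g g' x => hi (show algebraMap K E (ψ (g * g') x) =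
             algebraMap K E (ψ g (ψ g' x)) by rw [hψ, hψ, hψ, mul_smul])
           smul_zero := fun g => map_zero (ψ g)
           smul_add := fun g => map_add (ψ g)
           smul_one := fun g => map_one (ψ g)
           smul_mul := fun g => map_mul (ψ g) }, hψ⟩

theorem rowKILL (hT : RowTOW) (hC : RowCOREs) : RowKILL := by
  classical
  intro p q R g0 l i0 r h k G E Λ M _ _ _ _ _ _ _ _ _ _ _ lam ζ _ _ _ c hF hL hG hh hR hc hc0
  have hp := hF.pp
  have := Fact.mk hp
  have hgal := hF.gal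
  have : Finite Λ := Nat.finite_of_card_ne_zero (hF.card ▸ pow_ne_zero _ hp.ne_zero)
  have : FaithfulSMul Λ E := hgal.faithful
  obtain ⟨P, hP⟩ := Sylow.exists_subgroup_card_pow_prime (G := G) p (n := r) ⟨h, by rw [hG, mul_comm]⟩
  have hidx : P.index = h := by
    have := P.card_mul_index
    rw [hP, hG, mul_comm h] at this
    exact Nat.eq_of_mul_eq_mul_left (pow_pos hp.pos _) this
  have hΛ : ∀ (a b : Λ) (x : E), a • b • x = b • a • x := fun a b x => by
    obtain ⟨m, rfl⟩ := hF.gen a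
    obtain ⟨n, rfl⟩ := hF.gen b
    rw [smul_smul, smul_smul, ← zpow_add, ← zpow_add, add_comm]
  have hle : ∀ a b : ℕ, Subgroup.zpowers (lam ^ p ^ (a + b)) ≤ Subgroup.zpowers (lam ^ p ^ a) :=
    fun a b => Subgroup.zpowers_le.2 (by rw [pow_add, pow_mul]; exact Subgroup.npow_mem_zpowers _ _)
  obtain ⟨F0, _, _, _, _⟩ := H76.exists_fix E (Subgroup.zpowers (lam ^ p ^ i0))
  obtain ⟨F1, _, _, _, _⟩ := H76.exists_fix E (Subgroup.zpowers (lam ^ p ^ (i0 + r)))
  obtain ⟨F2, _, _, _, _⟩ := H76.exists_fix E (Subgroup.zpowers (lam ^ p ^ (i0 + r + r)))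
  obtain ⟨a0, ha0⟩ := H76.exists_lift (G := Subgroup.zpowers (lam ^ p ^ i0)) (K := F0)
    (algebraMap k E) fun s x => H76.smul_alg (s : Λ) x
  obtain ⟨a1, ha1⟩ := H76.exists_lift (G := Subgroup.zpowers (lam ^ p ^ (i0 + r))) (K := F1)
    (algebraMap F0 E) fun s x => H76.smul_alg (Subgroup.inclusion (hle i0 r) s) x
  obtain ⟨a2, ha2⟩ := H76.exists_lift (G := Subgroup.zpowers (lam ^ p ^ (i0 + r + r))) (K := F2)
    (algebraMap F1 E) fun s x => H76.smul_alg (Subgroup.inclusion (hle (i0 + r) r) s) x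
  let _ := a0.toAlgebra
  let _ := a1.toAlgebra
  let _ := a2.toAlgebra
  have : IsScalarTower F0 F1 E := .of_algebraMap_eq fun x => (ha1 x).symm
  have : IsScalarTower F1 F2 E := .of_algebraMap_eq fun x => (ha2 x).symm
  obtain ⟨_, e0⟩ := exists_act (E := E) (Q := Subgroup.zpowers (lam ^ p ^ i0)) (K := F0) P
    fun g s x => hF.comm g s x
  obtain ⟨_, e1⟩ := exists_act (E := E) (Q := Subgroup.zpowers (lam ^ p ^ (i0 + r))) (K := F1) P
    fun g s x => hF.comm g s x
  obtain ⟨_, e2⟩ := exists_act (E := E) (Q := Subgroup.zpowers (lam ^ p ^ (i0 + r + r))) (K := F2) P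
    fun g s x => hF.comm g s x
  obtain ⟨_, eΛ⟩ := exists_act (E := E) (Q := Subgroup.zpowers (lam ^ p ^ (i0 + r))) (K := F1) Λ
    fun g s x => hΛ g s x
  have hFP : Fr p q R g0 k P lam ζ :=
    { hF.toCy with comm := fun g => hF.comm g, eqv := fun g => hF.eqv g }
  have hLP : Lh p q l i0 k P E lam := by
    obtain ⟨i, hi, hi'⟩ := hL.im
    obtain ⟨θ, hθ⟩ := hL.unr
    exact ⟨hL.hl, hL.cop, ⟨i, hi, fun g => hi' g⟩,
      ⟨θ, fun g hg => hθ g fun e => hg (Subtype.ext e)⟩, hL.fix⟩
  have H1 := hT p q R g0 l i0 i0 r k P E Λ F0 F1 lam ζ hFP hLP hP le_rfl (by omega) e0 e1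
  have H2 := hT p q R g0 l i0 (i0 + r) r k P E Λ F1 F2 lam ζ hFP hLP hP (by omega) (by omega) e1 e2
  have i0E : ∀ x, Un.inc F0 E (Un.inc k F0 x) = Un.inc k E x := fun x => Un.ext (ha0 _)
  have i1E : ∀ x, Un.inc F1 E (Un.inc F0 F1 x) = Un.inc F0 E x := fun x => Un.ext (ha1 _)
  have i2E : ∀ x, Un.inc F2 E (Un.inc F1 F2 x) = Un.inc F1 E x := fun x => Un.ext (ha2 _)
  have sk : ∀ (g : G) x, Un.inc k E (g • x) = g • Un.inc k E x := fun g x => Un.ext (hF.eqv g _)
  have s0 : ∀ (g : P) x, Un.inc F0 E (g • x) = (g : G) • Un.inc F0 E x := fun g x => Un.ext (e0 g _)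
  have s1 : ∀ (g : P) x, Un.inc F1 E (g • x) = (g : G) • Un.inc F1 E x := fun g x => Un.ext (e1 g _)
  have s2 : ∀ (g : P) x, Un.inc F2 E (g • x) = (g : G) • Un.inc F2 E x := fun g x => Un.ext (e2 g _)
  have sΛ : ∀ (g : Λ) x, Un.inc F1 E (g • x) = g • Un.inc F1 E x := fun g x => Un.ext (eΛ g _)
  have cE : ∀ (g : G) (a : Λ) (x : Un E), g • a • x = a • g • x := fun g a x =>
    Un.ext (hF.comm g a _)
  have c1 : ∀ (g : P) (a : Λ) (x : Un F1), g • a • x = a • g • x := fun g a x =>
    H76.inc_inj (F := E) (by rw [s1, sΛ, sΛ, s1, cE])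
  have cD : ∀ (g : P) (D : Dv F1 l), g • lam • D = lam • g • D := fun g D =>
    DFunLike.congr_fun (hom_ext
      (f := (DistribSMul.toAddMonoidHom _ g).comp (DistribSMul.toAddMonoidHom _ lam))
      (g := (DistribSMul.toAddMonoidHom _ lam).comp (DistribSMul.toAddMonoidHom _ g)) fun y => by
        show g • lam • dv F1 l y = lam • g • dv F1 l y
        simp only [← H76.dv_smul rowNT2, c1]) D
  obtain ⟨t1, ε, ht1, hε⟩ := (hC p l P F0 F1 M H1).1 (fun s => Hm.post (Un.inc k F0) (c s))
    (fun s t => Hm.ext fun m => H76.inc_inj (F := E) (by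
      simp only [Hm.post_apply, Hm.add_apply, Hm.smul_apply, map_add, i0E, s0, Subgroup.coe_mul,
        hc s t, sk]
      rfl))
    (fun s m => by
      ext w
      rw [Hm.post_apply, dv_apply, rowNT2.ord_inc]
      exact mul_eq_zero_of_right _ (DFunLike.congr_fun (hc0 s m) (w.und k)))
  have hinv : ∀ (s : P) m, s • t1 (s⁻¹ • m) = t1 m + Un.inc F0 F1 (Un.inc k F0 (c s m)) :=
    fun s m => by
      have := DFunLike.congr_fun (ht1 s) m
      simp only [Hm.post_apply, Hm.sub_apply, Hm.smul_apply] at this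
      rw [this, add_sub_cancel]
  have fixk : ∀ (a : Λ) x, a • Un.inc k E x = Un.inc k E x := fun a x => Un.ext (H76.smul_alg a _)
  obtain ⟨u, hu⟩ := (hC p l P F1 F2 M H2).2 (Hm.post (Df lam) t1) (Hm.post (Df lam) ε)
    (fun s => Hm.ext fun m => by
      simp only [Hm.post_apply, Hm.smul_apply, Df_apply, smul_sub, c1, hinv, smul_add]
      refine H76.inc_inj (F := E) ?_
      simp only [map_sub, map_add, sΛ, i1E, i0E, fixk]
      abel)
    (Hm.ext fun m => by
      have := DFunLike.congr_fun hε m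
      simp only [Hm.post_apply, tr_apply, Hm.sum_apply, Hm.smul_apply] at this
      simp only [Hm.post_apply, tr_apply, Hm.sum_apply, Hm.smul_apply, Df_apply, map_sub,
        H76.dv_smul rowNT2, this, smul_sub, Finset.sum_sub_distrib, Finset.smul_sum, cD])
  let B : AddSubgroup (Hm M (Un E)) :=
    { carrier := {t | ∀ m, lam ^ p ^ (i0 + 2 * r) • t m = t m}
      zero_mem' := fun m => smul_zero _
      add_mem' := fun hx hy m => by rw [Hm.add_apply, smul_add, hx, hy]
      neg_mem' := fun hx m => by rw [Hm.neg_apply, smul_neg, hx] }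
  have e2r : i0 + 2 * r = i0 + r + r := by omega
  have f2 : ∀ x, lam ^ p ^ (i0 + 2 * r) • Un.inc F2 E x = Un.inc F2 E x := fun x =>
    Un.ext (H76.smul_alg (⟨_, e2r ▸ Subgroup.mem_zpowers _⟩ :
      Subgroup.zpowers (lam ^ p ^ (i0 + r + r))) _)
  obtain ⟨t, htB, ht, ht'⟩ := cores P (fun g => Hm.post (Un.inc k E) (c g))
    (fun s t => Hm.ext fun m => by
      simp only [Hm.post_apply, Hm.add_apply, Hm.smul_apply, map_add, hc s t, sk])
    (Hm.post (Un.inc F1 E) t1) (Hm.post (Un.inc F2 E) u) (Hm.post (Df lam))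
    (fun g x => Hm.ext fun m => by
      simp only [Hm.post_apply, Hm.smul_apply, Df_apply, smul_sub, cE])
    (fun g => Hm.ext fun m => by
      simp only [Hm.post_apply, Df_apply, fixk, sub_self, Hm.zero_apply])
    (fun s => Hm.ext fun m => by
      have := congrArg (Un.inc F1 E) (hinv s m)
      simp only [map_add, s1, i1E, i0E] at this
      simp only [Hm.post_apply, Hm.sub_apply, Hm.smul_apply]
      exact eq_sub_of_add_eq' this.symm)
    (Hm.ext fun m => by
      have := congrArg (Un.inc F2 E) (DFunLike.congr_fun hu m)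
      simp only [Hm.post_apply, tr_apply, Hm.sum_apply, Hm.smul_apply, map_sum, s2, i2E, Df_apply,
        map_sub, sΛ] at this
      simp only [Hm.post_apply, Hm.sum_apply, Hm.smul_apply, Df_apply]
      exact this)
    B (fun g x hx m => by rw [Hm.smul_apply, ← cE, hx])
    (fun m => by rw [Hm.post_apply, ← i2E, f2]) (fun g m => fixk _ _)
  exact ⟨t, _, htB, fun m => f2 _, fun g => hidx ▸ ht g, ht'⟩

end Pool.Agent.MP_db5b97_nt.H27
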